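import Pool.Agent.Helper47.KN.Goals

/-!
# Project KN, packet EX (exponent sums)
-/

set_option autoImplicit false

namespace Pool.Agent.Helper51.KN

open Equiv Pool.Agent.Helper47.KN Pool.Agent.Helper62.GR

theorem ex_of {n : ℕ} (i j : ZMod (n + 2)) :
    ex i (FreeGroup.of j) = Multiplicative.ofAdd (if j = i then (1 : ℤ) else 0) := by
  simp [ex]

theorem ex1 (n : ℕ) (v : ZMod (n + 2) → Bool) (i : ZMod (n + 2)) (w : FreeGroup (ZMod (n + 2))) :
    ex (i + 1) w = ex i (sec v false w) * ex i (sec v true w) := by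
  induction w using FreeGroup.induction_on with
  | C1 => simp [sec_one]
  | of j =>
    rw [ex_of, sec_of, sec_of]
    by_cases h : j = i + 1
    · subst h
      rw [if_pos rfl, add_sub_cancel_right]
      cases h2 : v (i + 1)
      · simp [ex_of]
      · simp [ex_of]
    · rw [if_neg h]
      have h' : ¬ (j - 1 = i) := fun h3 => h (by rw [← h3]; ring)
      cases h2 : v j
      · simp [ex_of, h']
      · simp [ex_of, h']
  | inv_of j h =>
    rw [map_inv, h, sec_inv, sec_inv, map_inv, map_inv]
    cases fl (FreeGroup.of j)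
    · simp only [Bool.xor_false, mul_inv]
    · simp only [Bool.xor_true, Bool.not_false, Bool.not_true, mul_inv]
      rw [mul_comm]
  | mul x y hx hy =>
    rw [map_mul, hx, hy, sec_mul, sec_mul, map_mul, map_mul]
    cases fl y
    · simp only [Bool.xor_false]
      rw [mul_mul_mul_comm]
    · simp only [Bool.xor_true, Bool.not_false, Bool.not_true]
      rw [mul_mul_mul_comm (ex i (sec v true x)), mul_comm (ex i (sec v true x))]

theorem ex2 (n : ℕ) (v : ZMod (n + 2) → Bool) (k : ℕ) :
    ∀ (w : FreeGroup (ZMod (n + 2))), Dep v k w → ∀ i, ex i w = 1 := by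
  induction k with
  | zero =>
    intro w hw i
    have : w = 1 := hw
    rw [this, map_one]
  | succ k ih =>
    intro w hw i
    have h : fl w = false ∧ ∀ b, Dep v k (sec v b w) := hw
    have h1 := ex1 n v (i - 1) w
    rw [sub_add_cancel] at h1
    rw [h1, ih _ (h.2 false), ih _ (h.2 true), one_mul]

theorem ex3 (n : ℕ) (A : Type) [CommGroup A] (ν : FreeGroup (ZMod (n + 2)) →* A)
    (w : FreeGroup (ZMod (n + 2))) (hw : ∀ i, ex i w = 1) : ν w = 1 := by
  have key : ∀ w : FreeGroup (ZMod (n + 2)),
      ν w = ∏ i, ν (FreeGroup.of i) ^ (Multiplicative.toAdd (ex i w)) := by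
    intro w
    induction w using FreeGroup.induction_on with
    | C1 => simp
    | of j =>
      rw [Finset.prod_eq_single j]
      · rw [ex_of]; simp
      · intro b _ hb
        rw [ex_of, if_neg (Ne.symm hb)]
        simp
      · intro h
        exact absurd (Finset.mem_univ j) h
    | inv_of j h =>
      rw [map_inv, h, ← Finset.prod_inv_distrib]
      refine Finset.prod_congr rfl fun i _ => ?_
      rw [map_inv, toAdd_inv, zpow_neg]
    | mul x y hx hy =>
      rw [map_mul, hx, hy, ← Finset.prod_mul_distrib]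
      refine Finset.prod_congr rfl fun i _ => ?_
      rw [map_mul, toAdd_mul, zpow_add]
  rw [key w]
  refine Finset.prod_eq_one fun i _ => ?_
  rw [hw i]
  simp

theorem ex_zero_par {n : ℕ} (w : FreeGroup (ZMod (n + 2))) :
    ((Multiplicative.toAdd (ex (0 : ZMod (n + 2)) w) : ℤ) : ZMod 2) = if fl w then 1 else 0 := by
  induction w using FreeGroup.induction_on with
  | C1 => simp [fl_one]
  | of j =>
    rw [ex_of, fl_of]
    by_cases h : j = 0
    · simp [h]
    · simp [h]
  | inv_of j h =>
    rw [map_inv, toAdd_inv, Int.cast_neg, h, fl_inv]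
    cases fl (FreeGroup.of j)
    · simp
    · decide
  | mul x y hx hy =>
    rw [map_mul, toAdd_mul, Int.cast_add, hx, hy, fl_mul]
    cases fl x <;> cases fl y <;> decide

theorem ex4 (n : ℕ) (v : ZMod (n + 2) → Bool) (j : ℕ) :
    ∀ (w w' : FreeGroup (ZMod (n + 2))), (∀ x, Agr (j + 1) (ev v w x) (ev v w' x)) →
    ((Multiplicative.toAdd (ex (j : ZMod (n + 2)) w) : ℤ) : ZMod 2) =
      ((Multiplicative.toAdd (ex (j : ZMod (n + 2)) w') : ℤ) : ZMod 2) := by
  induction j with
  | zero =>
    intro w w' h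
    have h1 := h (cn false fun _ => false)
    rw [ev_cn, ev_cn, Agr_cn] at h1
    have h2 : fl w = fl w' := by simpa using h1.1
    rw [Nat.cast_zero, ex_zero_par, ex_zero_par, h2]
  | succ j ih =>
    intro w w' h
    have h1 : ∀ b, ∀ x, Agr (j + 1) (ev v (sec v b w) x) (ev v (sec v b w') x) := by
      intro b x
      have h2 := h (cn b x)
      rw [ev_cn, ev_cn, Agr_cn] at h2
      exact h2.2
    rw [Nat.cast_succ, ex1 n v, ex1 n v, toAdd_mul, toAdd_mul, Int.cast_add, Int.cast_add,
      ih _ _ (h1 false), ih _ _ (h1 true)]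

theorem t : Pool.Agent.Helper47.KN.K_EX := by
  refine ⟨ex1, fun n v k w h => ex2 n v k w h, ?_, fun n v j w w' h => ex4 n v j w w' h⟩
  intro n A _ ν w hw
  exact ex3 n A ν w hw

end Pool.Agent.Helper51.KN
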