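import Pool.Agent.Helper70.KN.Goals

open MeasureTheory Set

namespace Pool.Agent.Helper51.KN.BD

open Pool.Agent.Helper70.KN

theorem t : S_BD := by
  intro N V hV
  choose m hm hmV using hV
  refine ⟨1 + ∑ i, (m i : ℝ), ?_, ?_⟩
  · have : (0 : ℝ) ≤ ∑ i, (m i : ℝ) := Finset.sum_nonneg fun i _ => Nat.cast_nonneg _
    linarith
  · intro x hx hxn i
    by_contra hcon
    push Not at hcon
    apply hxn
    refine ⟨_, subset_convexHull ℝ _ ⟨Pi.single i (m i), hmV i, rfl⟩, ?_⟩
    intro j
    by_cases hj : j = i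
    · subst hj
      simp only [Pi.single_eq_same]
      have h1 : (m j : ℝ) ≤ ∑ i, (m i : ℝ) :=
        Finset.single_le_sum (f := fun i => (m i : ℝ)) (fun i _ => Nat.cast_nonneg _) (Finset.mem_univ j)
      linarith
    · simp only [Pi.single_eq_of_ne hj, Nat.cast_zero]
      exact hx j

end Pool.Agent.Helper51.KN.BD
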