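import Pool.Agent.Helper70.KN.Goals4
import Pool.Agent.Helper57.KN.CC

/-!
# Slices in the diagonal direction (packet SHS4 of project KN; adapted from Helper19/KN/SHS.lean)
-/

set_option autoImplicit false

open MeasureTheory Set

namespace Pool.Agent.Helper51.KN.SHS4

open Pool.Agent.Helper70.KN

/-- The shear. -/
def Ph {N : ℕ} (J : Finset (Fin N)) (j : Fin N) (x : Fin N → ℝ) : Fin N → ℝ :=
  fun k => if k ∈ J ∨ k = j then x k else x k + x j

/-- The region. -/
def Rg {N : ℕ} (V : Finset (Fin N → ℕ)) (J : Finset (Fin N)) (j : Fin N) : Set (Fin N → ℝ) :=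
  {x | x ∈ cyl V J ∧ ∀ k, k ∉ J → k ≠ j → x j < x k}

/-- The inclusion of the proof. -/
lemma incl (hTB : S_TB4) {N : ℕ} {V : Finset (Fin N → ℕ)} {L : Set (Fin N → ℝ)} {ω θ : ℝ} (hF : Cut V L ω)
    (J : Finset (Fin N)) (hη : ∀ w ∈ L, ∑ k ∈ Jᶜ, w k ≤ θ) (j : Fin N) (hj : j ∉ J) (t : ℝ) (ht0 : 0 < t)
    (htθ : t * θ < 1) (D : Fin N → ℝ)
    (hD : ∀ k, D k = if k ∈ insert j J then 1 else 1 - θ * t)
    (x : Fin N → ℝ) (hx : x ∈ cyl V (insert j J)) (hxp : ∀ k, k ∉ J → k ≠ j → 0 < x k) :
    0 ≤ D j * x j ∧ D j * x j < 1 ∧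
      Ph J j (Function.update (fun k => D k * x k) j t) ∈ Rg V J j := by
  have hl : 0 < 1 - θ * t := by nlinarith
  obtain ⟨h0, h1, h2⟩ := hx
  have hDj : D j = 1 := by
    rw [hD, if_pos (Finset.mem_insert_self j J)]
  have hDJ : ∀ k ∈ J, D k = 1 := fun k hk => by
    rw [hD, if_pos (Finset.mem_insert_of_mem hk)]
  have hDn : ∀ k, k ∉ J → k ≠ j → D k = 1 - θ * t := fun k hk hkj => by
    rw [hD, if_neg]
    rw [Finset.mem_insert, not_or]
    exact ⟨hkj, hk⟩
  set y := Function.update (fun k => D k * x k) j t with hy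
  have hyj : y j = t := by rw [hy, Function.update_self]
  have hyk : ∀ k, k ≠ j → y k = D k * x k := fun k hk => by rw [hy, Function.update_of_ne hk]
  have hPJ : ∀ k ∈ J, Ph J j y k = x k := by
    intro k hk
    have hkj : k ≠ j := fun h => hj (h ▸ hk)
    unfold Ph
    rw [if_pos (Or.inl hk), hyk k hkj, hDJ k hk, one_mul]
  have hPj : Ph J j y j = t := by
    unfold Ph
    rw [if_pos (Or.inr rfl), hyj]
  have hPn : ∀ k, k ∉ J → k ≠ j → Ph J j y k = (1 - θ * t) * x k + t := by
    intro k hk hkj
    unfold Ph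
    rw [if_neg (by rw [not_or]; exact ⟨hk, hkj⟩), hyk k hkj, hDn k hk hkj, hyj]
  refine ⟨?_, ?_, ⟨?_, ?_, ?_⟩, ?_⟩
  · rw [hDj, one_mul]
    exact h0 j
  · rw [hDj, one_mul]
    exact h1 j (Finset.mem_insert_self j J)
  · intro k
    show 0 ≤ Ph J j y k
    by_cases hk : k ∈ J
    · rw [hPJ k hk]
      exact h0 k
    · by_cases hkj : k = j
      · rw [hkj, hPj]
        exact ht0.le
      · rw [hPn k hk hkj]
        have := h0 k
        have h3 : 0 ≤ x k := this
        positivity
  · intro k hk
    rw [hPJ k hk]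
    exact h1 k (Finset.mem_insert_of_mem hk)
  · intro hw
    apply h2
    have h3 := hTB N V L ω hF J θ (zr J (Ph J j y)) t hη hw ht0.le htθ
      (fun k hk => by unfold zr; rw [if_pos hk])
      (fun k hk => by
        unfold zr
        rw [if_neg hk]
        by_cases hkj : k = j
        · rw [hkj, hPj]
        · rw [hPn k hk hkj]
          have h3 : 0 ≤ x k := h0 k
          have : 0 ≤ (1 - θ * t) * x k := by positivity
          linarith)
    convert h3 using 1
    funext k
    unfold zr
    by_cases hk : k ∈ J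
    · rw [if_pos (Finset.mem_insert_of_mem hk), if_pos hk]
    · rw [if_neg hk, if_neg hk]
      by_cases hkj : k = j
      · rw [hkj, if_pos (Finset.mem_insert_self j J), hPj, sub_self, zero_div]
      · rw [if_neg (by rw [Finset.mem_insert, not_or]; exact ⟨hkj, hk⟩), hPn k hk hkj,
          add_sub_cancel_right, mul_div_cancel_left₀ _ hl.ne']
  · intro k hk hkj
    rw [hPj, hPn k hk hkj]
    have := mul_pos hl (hxp k hk hkj)
    linarith

theorem t (hMF : S_MF) (hSI : S_SI) (hSC : S_SC) (hTB : S_TB4) (hSH : S_SH) : S_SHS4 := by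
  intro N V L ω hF J θ j hθ hη hj
  have hlt : J.card < N := by
    have h1 : (insert j J).card ≤ N := by
      simpa using Finset.card_le_univ (insert j J)
    rw [Finset.card_insert_of_notMem hj] at h1
    omega
  obtain ⟨hm, hfin, -⟩ := hMF N V hF.1 J
  change W V (insert j J) ≤ θ * ((N : ℝ) - J.card) * (volume (Rg V J j)).toReal
  set κ := N - J.card - 1 with hκ
  have hRm : MeasurableSet (Rg V J j) := by
    have e : Rg V J j = cyl V J ∩ ⋂ k : Fin N, {x | k ∉ J → k ≠ j → x j < x k} := by
      ext x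
      simp only [Rg, mem_ofPred_eq, mem_inter_iff, mem_iInter]
    rw [e]
    refine hm.inter (MeasurableSet.iInter fun k => ?_)
    by_cases hk : k ∉ J ∧ k ≠ j
    · have e2 : {x : Fin N → ℝ | k ∉ J → k ≠ j → x j < x k} = {x | x j < x k} := by
        ext x
        simp only [mem_ofPred_eq]
        exact ⟨fun h => h hk.1 hk.2, fun h _ _ => h⟩
      rw [e2]
      exact measurableSet_lt (measurable_pi_apply j) (measurable_pi_apply k)
    · have e2 : {x : Fin N → ℝ | k ∉ J → k ≠ j → x j < x k} = univ := by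
        ext x
        simp only [mem_ofPred_eq, mem_univ, iff_true]
        exact fun h1 h2 => absurd ⟨h1, h2⟩ hk
      rw [e2]
      exact MeasurableSet.univ
  have hRfin : volume (Rg V J j) ≠ ⊤ := ne_top_of_le_ne_top hfin (measure_mono fun x hx => hx.1)
  have hPm : Measurable (Ph J j : (Fin N → ℝ) → Fin N → ℝ) := by
    rw [measurable_pi_iff]
    intro k
    by_cases hk : k ∈ J ∨ k = j
    · have : (fun x : Fin N → ℝ => Ph J j x k) = fun x => x k := by
        funext x
        simp only [Ph, if_pos hk]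
      rw [this]
      exact measurable_pi_apply k
    · have : (fun x : Fin N → ℝ => Ph J j x k) = fun x => x k + x j := by
        funext x
        simp only [Ph, if_neg hk]
      rw [this]
      exact (measurable_pi_apply k).add (measurable_pi_apply j)
  set P : Set (Fin N → ℝ) := {x | Ph J j x ∈ Rg V J j} with hP
  have hPms : MeasurableSet P := hPm hRm
  have hPv : volume P = volume (Rg V J j) := hSH N (Rg V J j) J j hRm
  set A : Set (Fin N → ℝ) := cyl V (insert j J) ∩ {x | ∀ k, k ∉ J → k ≠ j → 0 < x k} with hA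
  have hAv : volume (cyl V (insert j J)) ≤ volume A := by
    have hsub : cyl V (insert j J) ⊆ A ∪ ⋃ k : Fin N, {x : Fin N → ℝ | x k = 0} := by
      intro x hx
      by_cases h : ∀ k, k ∉ J → k ≠ j → 0 < x k
      · exact Or.inl ⟨hx, h⟩
      · right
        push Not at h
        obtain ⟨k, -, -, hk⟩ := h
        rw [mem_iUnion]
        exact ⟨k, le_antisymm hk (hx.1 k)⟩
    have hnull : volume (⋃ k : Fin N, {x : Fin N → ℝ | x k = 0}) = 0 := by
      rw [measure_iUnion_null_iff]
      intro k
      exact Measure.pi_hyperplane (fun _ : Fin N => (volume : Measure ℝ)) k 0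
    calc volume (cyl V (insert j J)) ≤ volume (A ∪ ⋃ k : Fin N, {x : Fin N → ℝ | x k = 0}) :=
          measure_mono hsub
      _ ≤ volume A + volume (⋃ k : Fin N, {x : Fin N → ℝ | x k = 0}) := measure_union_le _ _
      _ = volume A := by rw [hnull, add_zero]
  have slice : ∀ t : ℝ, 0 < t → t < 1 / θ →
      ENNReal.ofReal ((1 - t / (1 / θ)) ^ κ) * volume (cyl V (insert j J)) ≤
        volume {x : Fin N → ℝ | 0 ≤ x j ∧ x j < 1 ∧ Function.update x j t ∈ P} := by
    intro t ht0 hts
    have htθ : t * θ < 1 := by rwa [lt_div_iff₀ hθ] at hts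
    have e1 : 1 - t / (1 / θ) = 1 - θ * t := by
      field_simp
    rw [e1]
    have hl : 0 < 1 - θ * t := by nlinarith
    let D : Fin N → ℝ := fun k => if k ∈ insert j J then 1 else 1 - θ * t
    have hDp : ∀ k, 0 < D k := by
      intro k
      simp only [D]
      split_ifs
      · exact one_pos
      · exact hl
    have hprod : ∏ k, D k = (1 - θ * t) ^ κ := by
      simp only [D]
      rw [Finset.prod_ite, Finset.prod_const_one, one_mul, Finset.prod_const]
      congr 1
      have : Finset.univ.filter (fun k => k ∉ insert j J) = (insert j J)ᶜ := by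
        ext k
        simp
      rw [this, Finset.card_compl, Fintype.card_fin, Finset.card_insert_of_notMem hj]
      omega
    have hupd : Measurable fun x : Fin N → ℝ => Function.update x j t := by
      rw [measurable_pi_iff]
      intro k
      by_cases hk : k = j
      · subst hk
        simp only [Function.update_self]
        exact measurable_const
      · simp only [Function.update_of_ne hk]
        exact measurable_pi_apply k
    have hRm' : MeasurableSet {x : Fin N → ℝ | 0 ≤ x j ∧ x j < 1 ∧ Function.update x j t ∈ P} :=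
      (measurableSet_le measurable_const (measurable_pi_apply j)).inter
        ((measurableSet_lt (measurable_pi_apply j) measurable_const).inter (hupd hPms))
    rw [hSC N _ D hRm' hDp, hprod]
    refine mul_le_mul_right (hAv.trans (measure_mono ?_)) _
    rintro x ⟨hx, hxp⟩
    exact incl hTB hF J hη j hj t ht0 htθ D (fun k => rfl) x hx hxp
  set c : ℝ := 1 / θ with hc
  have hc0 : 0 < c := by positivity
  have hcont : Continuous fun t : ℝ => (1 - t / c) ^ κ := by fun_prop
  have hint : IntegrableOn (fun t : ℝ => (1 - t / c) ^ κ) (Ioo 0 c) :=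
    (hcont.integrableOn_Icc (a := 0) (b := c)).mono_set Ioo_subset_Icc_self
  have hnn : ∀ t ∈ Ioo (0 : ℝ) c, 0 ≤ (1 - t / c) ^ κ := by
    intro t ht
    apply pow_nonneg
    rw [sub_nonneg, div_le_one hc0]
    exact ht.2.le
  have hI : ∫ t in (0 : ℝ)..c, (1 - t / c) ^ κ = ∫ t in Ioo (0 : ℝ) c, (1 - t / c) ^ κ := by
    rw [intervalIntegral.integral_of_le hc0.le, integral_Ioc_eq_integral_Ioo]
  have hI0 : 0 ≤ ∫ t in Ioo (0 : ℝ) c, (1 - t / c) ^ κ :=
    setIntegral_nonneg measurableSet_Ioo hnn
  have hle : ENNReal.ofReal (∫ t in Ioo (0 : ℝ) c, (1 - t / c) ^ κ) *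
      volume (cyl V (insert j J)) ≤ volume (Rg V J j) := by
    rw [ofReal_integral_eq_lintegral_ofReal hint
      ((ae_restrict_iff' measurableSet_Ioo).mpr (Filter.Eventually.of_forall hnn))]
    rw [← lintegral_mul_const _ (hcont.measurable.ennreal_ofReal)]
    rw [← hPv, hSI N P j hPms]
    calc ∫⁻ t in Ioo (0 : ℝ) c, ENNReal.ofReal ((1 - t / c) ^ κ) * volume (cyl V (insert j J))
        ≤ ∫⁻ t in Ioo (0 : ℝ) c,
            volume {x : Fin N → ℝ | 0 ≤ x j ∧ x j < 1 ∧ Function.update x j t ∈ P} :=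
          setLIntegral_mono' measurableSet_Ioo fun t ht => slice t ht.1 ht.2
      _ ≤ ∫⁻ t : ℝ, volume {x : Fin N → ℝ | 0 ≤ x j ∧ x j < 1 ∧ Function.update x j t ∈ P} :=
          setLIntegral_le_lintegral _ _
  rw [← hI, Pool.Agent.Helper57.KN.CC.int_pow c hc0 κ] at hle
  have hcast : (κ : ℝ) + 1 = (N : ℝ) - J.card := by
    have h2 : κ + 1 = N - J.card := by omega
    have h3 : ((κ + 1 : ℕ) : ℝ) = ((N - J.card : ℕ) : ℝ) := by rw [h2]
    rw [Nat.cast_sub hlt.le] at h3
    push_cast at h3
    exact h3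
  rw [hcast] at hle
  have hpos : (0 : ℝ) < (N : ℝ) - J.card := by
    have : (J.card : ℝ) < N := by exact_mod_cast hlt
    linarith
  have h5 := ENNReal.toReal_mono hRfin hle
  rw [ENNReal.toReal_mul, ENNReal.toReal_ofReal (by positivity)] at h5
  have h6 : W V (insert j J) = (volume (cyl V (insert j J))).toReal := rfl
  rw [← h6, hc] at h5
  have h7 : 1 / θ / ((N : ℝ) - J.card) * W V (insert j J) =
      W V (insert j J) / (θ * ((N : ℝ) - J.card)) := by
    field_simp
  rw [h7, div_le_iff₀ (by positivity)] at h5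
  linarith

end Pool.Agent.Helper51.KN.SHS4
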